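import Pool.Agent.H56.G3.TI
import Pool.Agent.H78.GS.TB3

set_option autoImplicit false

namespace Pool.Agent.H5.GS3

open Finset Pool.Agent.H6.N4D Pool.Agent.H93.EB Pool.Agent.H93.GS Pool.Agent.H56.G3

theorem pf_E3 (hGap : ∃ (B : ℕ) (c X₁ : ℝ), Gap B c X₁) (hBUN : Pool.Agent.H78.GS.T_BUN)
    (hSG : T_SG) (hBN : T_BN) : Pool.Agent.H93.GS.T_E3 := by
  intro th c hth hth1 hc
  obtain ⟨B, cg, Xg, hG⟩ := hGap
  obtain ⟨K, ε, e₀, XB, hK, hε, he₀, hB⟩ := hBUN B cg Xg hG (r0 th) (c / 40) (by positivity)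
  obtain ⟨κ, ε₁, hκ, hε₁, hN⟩ := hBN th c ε e₀ K hth hth1 hc hε he₀ hK
  obtain ⟨ε', r, hε', hS⟩ := hSG th c hth hth1 hc K κ ε₁ hK hκ hε₁
  obtain ⟨XN, hN⟩ := hN r
  obtain ⟨XS, hS⟩ := hS (max XB XN)
  refine ⟨ε', max XS 3, hε', ?_⟩
  intro X a lam hX hlio ha hHm hmono
  by_contra hcon
  have hcte : c ≤ te th lam X a := not_lt.1 hcon
  have hX3 : (3 : ℝ) ≤ X := by exact_mod_cast (le_max_right XS 3).trans hX
  have hlog : 1 ≤ Real.log X := by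
    rw [Real.le_log_iff_exp_le (by linarith)]
    exact (Real.exp_one_lt_d9.le.trans (by norm_num)).trans hX3
  have hpow : Real.log X ^ (1 / 2 : ℝ) ≤ Real.log X ^ (24 / 25 : ℝ) :=
    Real.rpow_le_rpow_of_exponent_le hlog (by norm_num)
  have hp0 : 0 ≤ Real.log X ^ (24 / 25 : ℝ) := Real.rpow_nonneg (by linarith) _
  have hakt : a ≤ kt X := by
    unfold kt
    refine Nat.le_floor ?_
    linarith
  have hkt : (kt X : ℝ) ≤ 2 * Real.log X ^ (24 / 25 : ℝ) := by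
    unfold kt
    exact Nat.floor_le (by linarith)
  have h1 := hmono a (kt X) le_rfl hakt hkt
  obtain ⟨S, hstr, hSX, hcnt, hen⟩ := hS X a lam ((le_max_left XS 3).trans hX) hlio ha hHm hcte h1
  obtain ⟨F, θ, φ, hbnd⟩ := hN S (kt X) lam hstr ((le_max_right XB XN).trans hSX) hlio hcnt hen
  exact hB S F θ φ hstr.ok hstr.hK ((le_max_left XB XN).trans hSX) hstr.ln hbnd

end Pool.Agent.H5.GS3
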