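import Pool.Agent.H78.GS.TA3

set_option autoImplicit false

open Finset Pool.Agent.H6.N4D

namespace Pool.Agent.H5.GS3

open Pool.Agent.H78.GS

theorem gds_clip (y y' A m ε : ℝ) (hy' : 0 ≤ y') (hm : 1 ≤ m) (hA : |y' - y| ≤ A)
    (hε : A + (m - 1) ≤ ε) :
    min 1 (m * y') ≤ min 1 y + ε ∧ min 1 y ≤ min 1 (m * y') + ε := by
  obtain ⟨h1, h2⟩ := abs_le.1 hA
  have hA0 : 0 ≤ A := (abs_nonneg _).trans hA
  have h3 : y' ≤ m * y' := by nlinarith
  constructor
  · rw [← min_add_add_right]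
    refine le_min ?_ ?_
    · exact (min_le_left _ _).trans (by linarith)
    · rcases le_total y' 1 with h | h
      · have h4 : m * y' ≤ y' + (m - 1) := by nlinarith
        exact (min_le_right _ _).trans (by linarith)
      · exact (min_le_left _ _).trans (by linarith)
  · rw [← min_add_add_right]
    refine le_min ?_ ?_
    · exact (min_le_left _ _).trans (by linarith)
    · exact (min_le_right _ _).trans (by linarith)

theorem gds_fold (A A' : Finset ℕ) (f f' : ℕ → ℝ) (ε : ℝ) (hε : 0 ≤ ε)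
    (h : ∀ k ∈ A, ∃ k' ∈ A', min 1 (f' k') ≤ min 1 (f k) + ε) :
    A'.fold min 1 f' ≤ A.fold min 1 f + ε := by
  have h1 : A'.fold min 1 f' - ε ≤ A.fold min 1 f := by
    have h0 : A'.fold min 1 f' ≤ A'.fold min 1 f' := le_rfl
    rw [Finset.le_fold_min] at h0
    rw [Finset.le_fold_min]
    refine ⟨by linarith [h0.1], fun k hk => ?_⟩
    obtain ⟨k', hk', hle⟩ := h k hk
    have h2 : A'.fold min 1 f' ≤ min 1 (f' k') := le_min h0.1 (h0.2 k' hk')
    have h3 : min 1 (f k) ≤ f k := min_le_right _ _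
    linarith
  linarith

theorem gds_pair (S : Par) (hS : S.Ok) (e₁ e e₀ c : ℝ) (he₁ : 0 < e₁) (he₁1 : e₁ ≤ 1) (he : 0 < e)
    (he₀ : 0 ≤ e₀) (he₀e : e₀ ≤ e * e₁ / 100) (hr : S.rho ≤ e * e₁ / 10) (hr2 : S.rho ≤ 1 / 2)
    (hc : |c| ≤ 1 / S.rho ^ 2) (D w : ℕ) (hw : (w : ℝ) * S.h ≤ S.rho ^ 2) (t : ℤ)
    (θ φ : ℤ → ℕ → ℝ) (j i k k' : ℕ) (h1 : RS S e₀ θ φ w t j i) (h2 : RS S e₀ θ φ w (t + D) k k') :
    min 1 (ds S e₁ θ D c (t + w) i k') ≤ min 1 (ds S e₁ θ D c t j k) + e ∧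
      min 1 (ds S e₁ θ D c t j k) ≤ min 1 (ds S e₁ θ D c (t + w) i k') + e := by
  have hh := hS.hh
  have hr0 := hS.hr0
  have hx0 : 0 < S.x t := Par.x_pos t
  obtain ⟨y, hy⟩ : ∃ y, y = S.rho * S.x t / e₁ * nd (θ (t + D) k - θ t j - c / S.x t) := ⟨_, rfl⟩
  obtain ⟨y', hy'⟩ : ∃ y', y' = S.rho * S.x t / e₁ *
    nd (θ (t + w + D) k' - θ (t + w) i - c / S.x (t + w)) := ⟨_, rfl⟩
  have hq : 0 < S.rho * S.x t / e₁ := by positivity
  have hy'0 : 0 ≤ y' := by
    rw [hy']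
    exact mul_nonneg hq.le (nd_nonneg _)
  have hE : S.x (t + w) = S.x t * Real.exp (S.h * w) := by
    have := Par.x_add (S := S) t (w : ℤ)
    simpa using this
  have hhw : 0 ≤ S.h * w := by positivity
  have hm : 1 ≤ Real.exp (S.h * w) := Real.one_le_exp hhw
  have e1 : ds S e₁ θ D c t j k = y := by rw [hy]; rfl
  have e2 : ds S e₁ θ D c (t + w) i k' = Real.exp (S.h * w) * y' := by
    rw [hy']
    unfold ds
    rw [hE]
    ring
  rw [e1, e2]
  have hxD : S.x t ≤ S.x (t + D) := Par.x_mono hh (by omega)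
  have hwD : t + (D : ℤ) + w = t + w + D := by ring
  have h21 : nd (θ (t + w + D) k' - θ (t + D) k) ≤ e₀ / (S.rho * S.x t) := by
    have h3 := h2.1
    rw [hwD] at h3
    refine h3.trans ?_
    exact div_le_div_of_nonneg_left he₀ (by positivity) (mul_le_mul_of_nonneg_left hxD hr0.le)
  have hcx : |c / S.x t - c / S.x (t + w)| ≤ 1 / S.x t := by
    have h3 : c / S.x t - c / S.x (t + w) = c * (1 - Real.exp (-(S.h * w))) / S.x t := by
      rw [hE, Real.exp_neg]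
      have := Real.exp_pos (S.h * w)
      field_simp
    have h4 : 1 - S.h * w ≤ Real.exp (-(S.h * w)) := Real.one_sub_le_exp_neg _
    have h5 : Real.exp (-(S.h * w)) ≤ 1 := by
      rw [Real.exp_le_one_iff]; linarith
    have h6 : |c| * (1 - Real.exp (-(S.h * w))) ≤ 1 := by
      calc |c| * (1 - Real.exp (-(S.h * w))) ≤ 1 / S.rho ^ 2 * S.rho ^ 2 := by
            refine mul_le_mul hc ?_ (by linarith) (by positivity)
            nlinarith
        _ = 1 := by field_simp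
    rw [h3, abs_div, abs_mul, abs_of_pos hx0, abs_of_nonneg (by linarith : 0 ≤ 1 -
      Real.exp (-(S.h * w)))]
    exact div_le_div_of_nonneg_right h6 hx0.le
  have hnd : nd ((θ (t + w + D) k' - θ (t + w) i - c / S.x (t + w)) -
      (θ (t + D) k - θ t j - c / S.x t)) ≤ 2 * e₀ / (S.rho * S.x t) + 1 / S.x t := by
    have h3 : (θ (t + w + D) k' - θ (t + w) i - c / S.x (t + w)) -
        (θ (t + D) k - θ t j - c / S.x t) =
        ((θ (t + w + D) k' - θ (t + D) k) - (θ (t + w) i - θ t j)) +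
          (c / S.x t - c / S.x (t + w)) := by ring
    rw [h3]
    have h4 := nd_add_le ((θ (t + w + D) k' - θ (t + D) k) - (θ (t + w) i - θ t j))
      (c / S.x t - c / S.x (t + w))
    have h5 := nd_sub_le (θ (t + w + D) k' - θ (t + D) k) (θ (t + w) i - θ t j)
    have h6 := nd_le_abs (c / S.x t - c / S.x (t + w))
    have h7 := h1.1
    have h8 : 2 * e₀ / (S.rho * S.x t) = e₀ / (S.rho * S.x t) + e₀ / (S.rho * S.x t) := by ring
    rw [h8]
    linarith
  have hA : |y' - y| ≤ 2 * e₀ / e₁ + S.rho / e₁ := by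
    rw [hy, hy', ← mul_sub, abs_mul, abs_of_pos hq]
    refine (mul_le_mul_of_nonneg_left ((abs_nd_sub _ _).trans hnd) hq.le).trans (le_of_eq ?_)
    field_simp
  have hexp : Real.exp (S.h * w) - 1 ≤ 2 * S.rho ^ 2 := by
    have h3 : S.h * w ≤ S.rho ^ 2 := by rw [mul_comm]; exact hw
    have h4 : S.rho ^ 2 ≤ 1 / 4 := by nlinarith
    have h5 : 1 - S.h * w ≤ Real.exp (-(S.h * w)) := Real.one_sub_le_exp_neg _
    have h6 : Real.exp (S.h * w) * Real.exp (-(S.h * w)) = 1 := by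
      rw [← Real.exp_add]; simp
    have h7 : Real.exp (S.h * w) * (1 - S.h * w) ≤ 1 :=
      (mul_le_mul_of_nonneg_left h5 (Real.exp_pos _).le).trans h6.le
    have h8 : Real.exp (S.h * w) ≤ 2 := by nlinarith
    nlinarith
  refine gds_clip y y' _ _ e hy'0 hm hA ?_
  have h3 : 2 * e₀ / e₁ ≤ e / 50 := by
    rw [div_le_iff₀ he₁]
    linarith
  have h4 : S.rho / e₁ ≤ e / 10 := by
    rw [div_le_iff₀ he₁]
    linarith
  have h5 : 2 * S.rho ^ 2 ≤ e / 10 := by
    have h6 : e * e₁ ≤ e := mul_le_of_le_one_right he.le he₁1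
    nlinarith
  linarith

theorem pf_GDS (_hSIZ : T_SIZ) (hCTP : T_CTP) : T_GDS := by
  intro K r₀ e₁ e hK he₁ he₁1 he
  refine ⟨(10 / (e * e₁) + 2) ^ 4, ?_⟩
  intro S Δ e₀ c D F θ φ hS hSK hX hΔ h12 he₀ he₀e hF hInv hD hc w hw hwV
  have hr0 := hS.hr0
  have hee : 0 < e * e₁ := mul_pos he he₁
  have ha0 : 0 ≤ 10 / (e * e₁) + 2 := by positivity
  have hX4 : 10 / (e * e₁) + 2 ≤ S.X ^ (1 / 4 : ℝ) := by
    have h1 : ((10 / (e * e₁) + 2) ^ 4) ^ (1 / 4 : ℝ) = 10 / (e * e₁) + 2 := by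
      have h2 := Real.pow_rpow_inv_natCast ha0 (n := 4) (by norm_num)
      rw [one_div]
      exact_mod_cast h2
    rw [← h1]
    exact Real.rpow_le_rpow (by positivity) hX (by norm_num)
  have hr1 := hS.hr1
  have h10 : 0 ≤ 10 / (e * e₁) := by positivity
  have hra : S.rho * (10 / (e * e₁)) ≤ 1 := by
    refine le_trans (mul_le_mul_of_nonneg_left ?_ hr0.le) hr1
    linarith
  have hr : S.rho ≤ e * e₁ / 10 := by
    rw [mul_div_assoc', div_le_iff₀ hee] at hra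
    linarith
  have hr2 : S.rho ≤ 1 / 2 := by
    have h1 : S.rho * 2 ≤ 1 := by
      refine le_trans (mul_le_mul_of_nonneg_left ?_ hr0.le) hr1
      linarith
    linarith
  have hVh : (S.V : ℝ) * S.h ≤ S.rho ^ 2 := by
    have h1 : (S.V : ℝ) ≤ S.rho ^ 2 / S.h := Nat.floor_le (by have := hS.hh; positivity)
    rwa [le_div_iff₀ hS.hh] at h1
  have hwh : (w : ℝ) * S.h ≤ S.rho ^ 2 := by
    refine le_trans (mul_le_mul_of_nonneg_right ?_ hS.hh.le) hVh
    exact_mod_cast hwV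
  obtain ⟨-, -, hN0, -, hN1, hI, hv, -, hcnt⟩ := hCTP S Δ hS hΔ h12
  have hDabs : |(D : ℤ)| ≤ Δ := by
    rw [abs_of_nonneg (by positivity)]
    exact hD
  have hsh := hInv.sh w hw hwV
  have hmain : (cut S Δ).cnt (fun t => t + (w : ℤ) ∈ (cut S Δ).I ∧
      ∃ j ∈ F t, ∃ i ∈ F (t + w), RS S e₀ θ φ w t j i ∧
        e < |Gd S e₁ θ F D c (t + w) i - Gd S e₁ θ F D c t j|) ≤
      (cut S Δ).cnt (fun t => (fun t => t + (w : ℤ) ∈ S.I ∧
        ¬ Bij (RS S e₀ θ φ w t) (F t) (F (t + w))) (t + D)) := by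
    refine Par.cnt_mono fun t ht hbad => ?_
    obtain ⟨htw, j, hj, i, hi, hR, hlt⟩ := hbad
    have hwD : t + (D : ℤ) + w = t + w + D := by ring
    refine ⟨?_, fun hB => ?_⟩
    · rw [hwD]
      exact hv _ htw D hDabs
    · refine absurd hlt (not_lt.2 ?_)
      have hpair : ∀ k k', RS S e₀ θ φ w (t + D) k k' →
          min 1 (ds S e₁ θ D c (t + w) i k') ≤ min 1 (ds S e₁ θ D c t j k) + e ∧
          min 1 (ds S e₁ θ D c t j k) ≤ min 1 (ds S e₁ θ D c (t + w) i k') + e :=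
        fun k k' hkk => gds_pair S hS e₁ e e₀ c he₁ he₁1 he he₀ he₀e hr hr2 hc D w hwh t θ φ j i k
          k' hR hkk
      rw [hwD] at hB
      have f1 : Gd S e₁ θ F D c (t + w) i ≤ Gd S e₁ θ F D c t j + e := by
        refine gds_fold _ _ _ _ e he.le fun k hk => ?_
        obtain ⟨k', ⟨hk', hkk⟩, -⟩ := hB.1 k hk
        exact ⟨k', hk', (hpair k k' hkk).1⟩
      have f2 : Gd S e₁ θ F D c t j ≤ Gd S e₁ θ F D c (t + w) i + e := by
        refine gds_fold _ _ _ _ e he.le fun k' hk' => ?_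
        obtain ⟨k, ⟨hk, hkk⟩, -⟩ := hB.2 k' hk'
        exact ⟨k, hk, (hpair k k' hkk).2⟩
      rw [abs_le]
      constructor <;> linarith
  have h3 := hcnt (fun t => t + (w : ℤ) ∈ S.I ∧ ¬ Bij (RS S e₀ θ φ w t) (F t) (F (t + w))) D hDabs
  refine hmain.trans (h3.trans (hsh.trans ?_))
  nlinarith [mul_nonneg he.le hN0]

end Pool.Agent.H5.GS3
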